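import Mathlib

/-! Core inequality for two-coalition structures with average-distance costs (helper135). -/

namespace Q135.Srt

open Finset

/-- Number of `true` values below `i`. -/
def cN (x : ℕ → Bool) : ℕ → ℕ
  | 0 => 0
  | i + 1 => cN x i + (if x i then 1 else 0)

/-- Complementary membership. -/
def nt (x : ℕ → Bool) : ℕ → Bool := fun j => !(x j)

theorem nt_nt (x : ℕ → Bool) : nt (nt x) = x := by
  funext j
  simp [nt]

theorem cN_succ_true {x : ℕ → Bool} {i : ℕ} (h : x i = true) : cN x (i + 1) = cN x i + 1 := by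
  simp [cN, h]

theorem cN_succ_false {x : ℕ → Bool} {i : ℕ} (h : x i = false) : cN x (i + 1) = cN x i := by
  simp [cN, h]

theorem nt_true {x : ℕ → Bool} {i : ℕ} (h : x i = true) : nt x i = false := by simp [nt, h]

theorem nt_false {x : ℕ → Bool} {i : ℕ} (h : x i = false) : nt x i = true := by simp [nt, h]

theorem cN_add (x : ℕ → Bool) (i : ℕ) : cN x i + cN (nt x) i = i := by
  induction i with
  | zero => rfl
  | succ i ih =>
    cases hx : x i
    · rw [cN_succ_false hx, cN_succ_true (nt_false hx)]; omega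
    · rw [cN_succ_true hx, cN_succ_false (nt_true hx)]; omega

theorem cN_mono (x : ℕ → Bool) {i j : ℕ} (h : i ≤ j) : cN x i ≤ cN x j := by
  induction h with
  | refl => exact le_rfl
  | step _ ih =>
    refine ih.trans ?_
    simp only [cN]
    omega

/-- Kernel of the sorted structure with cut `s`. -/
noncomputable def h (n s i : ℕ) : ℝ :=
  if i ≤ s then (i : ℝ) * ((s : ℝ) - i) / ((s : ℝ) - 1)
  else ((i : ℝ) - s) * ((n : ℝ) - i) / ((n : ℝ) - s - 1)

/-- Kernel of the structure `x`. -/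
noncomputable def H (n : ℕ) (x : ℕ → Bool) (i : ℕ) : ℝ :=
  (cN x i : ℝ) * ((cN x n : ℝ) - cN x i) / ((cN x n : ℝ) - 1) +
    (cN (nt x) i : ℝ) * ((cN (nt x) n : ℝ) - cN (nt x) i) / ((cN (nt x) n : ℝ) - 1)

theorem H_nt (n : ℕ) (x : ℕ → Bool) (i : ℕ) : H n (nt x) i = H n x i := by
  simp only [H, nt_nt]
  ring

/-- Half second difference of `H` at the gap `j + 1`, in terms of `a = x j`, `b = x (j+1)`, the counts
`c`, `d` at `j + 1` and the totals `m`, `m'`. -/
noncomputable def yv (m m' c d : ℝ) : Bool → Bool → ℝ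
  | true, true => -1 / (m - 1)
  | false, false => -1 / (m' - 1)
  | false, true => (d - 1) / (m' - 1) - c / (m - 1)
  | true, false => (c - 1) / (m - 1) - d / (m' - 1)

noncomputable def kv (m m' c d : ℝ) : Bool → Bool → ℝ
  | true, true => -(d * (m' - d) * (m + m' - 2) / ((m - 1) * (m' - 1)))
  | false, false => -(c * (m - c) * (m + m' - 2) / ((m - 1) * (m' - 1)))
  | false, true => -(c * (m - c) * (m + m' - 2) / ((m - 1) * (m' - 1))) +
      (c + d - 1) * (m + m' - c - d) * (d / (m' - 1) - c / (m - 1))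
  | true, false => -(d * (m' - d) * (m + m' - 2) / ((m - 1) * (m' - 1))) +
      (c + d - 1) * (m + m' - c - d) * (c / (m - 1) - d / (m' - 1))

/-- The increment of a count. -/
noncomputable def up (b : Bool) : ℝ := if b then 1 else 0

theorem kv_step {m m' c d : ℝ} (hm : m - 1 ≠ 0) (hm' : m' - 1 ≠ 0) (a b e : Bool) :
    kv m m' (c + up b) (d + up (!b)) b e - kv m m' c d a b =
      (c + d) * (m + m' - c - d - 1) * (yv m m' (c + up b) (d + up (!b)) b e - yv m m' c d a b) := by
  cases a <;> cases b <;> cases e <;> simp only [kv, yv, up] <;> simp <;> field_simp <;> ring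

/-- The second expression of `kv` at a boundary. -/
theorem kv_tf {m m' c d : ℝ} (hm : m - 1 ≠ 0) (hm' : m' - 1 ≠ 0) :
    kv m m' c d true false = -(c * (m - c) * (m + m' - 2) / ((m - 1) * (m' - 1))) +
      (c + d) * (m + m' - c - d - 1) * ((c - 1) / (m - 1) - (d - 1) / (m' - 1)) := by
  simp only [kv]
  field_simp
  ring

theorem kv_ft {m m' c d : ℝ} (hm : m - 1 ≠ 0) (hm' : m' - 1 ≠ 0) :
    kv m m' c d false true = -(d * (m' - d) * (m + m' - 2) / ((m - 1) * (m' - 1))) +
      (c + d) * (m + m' - c - d - 1) * ((d - 1) / (m' - 1) - (c - 1) / (m - 1)) := by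
  simp only [kv]
  field_simp
  ring

theorem cN_up (x : ℕ → Bool) (i : ℕ) : (cN x (i + 1) : ℝ) = cN x i + up (x i) := by
  cases hx : x i
  · rw [cN_succ_false hx]; simp [up]
  · rw [cN_succ_true hx]; simp [up]

theorem cNnt_up (x : ℕ → Bool) (i : ℕ) : (cN (nt x) (i + 1) : ℝ) = cN (nt x) i + up (!(x i)) := by
  rw [cN_up]; rfl

/-- `y` at gap `j + 1`. -/
noncomputable def Y (n : ℕ) (x : ℕ → Bool) (j : ℕ) : ℝ :=
  yv (cN x n) (cN (nt x) n) (cN x (j + 1)) (cN (nt x) (j + 1)) (x j) (x (j + 1))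

/-- `κ` at gap `j + 1`. -/
noncomputable def K (n : ℕ) (x : ℕ → Bool) (j : ℕ) : ℝ :=
  kv (cN x n) (cN (nt x) n) (cN x (j + 1)) (cN (nt x) (j + 1)) (x j) (x (j + 1))

theorem add_cast (x : ℕ → Bool) (i : ℕ) : (cN x i : ℝ) + cN (nt x) i = i := by
  exact_mod_cast cN_add x i

theorem K_step {n : ℕ} {x : ℕ → Bool} (hm : 2 ≤ cN x n) (hm' : 2 ≤ cN (nt x) n) (j : ℕ) :
    K n x (j + 1) - K n x j = ((j : ℝ) + 1) * ((n : ℝ) - j - 2) * (Y n x (j + 1) - Y n x j) := by
  have h1 : (cN x n : ℝ) - 1 ≠ 0 := by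
    have : (2 : ℝ) ≤ cN x n := by exact_mod_cast hm
    intro h; linarith
  have h2 : (cN (nt x) n : ℝ) - 1 ≠ 0 := by
    have : (2 : ℝ) ≤ cN (nt x) n := by exact_mod_cast hm'
    intro h; linarith
  have key := kv_step (m := cN x n) (m' := cN (nt x) n) (c := cN x (j + 1))
    (d := cN (nt x) (j + 1)) h1 h2 (x j) (x (j + 1)) (x (j + 1 + 1))
  have e1 := cN_up x (j + 1)
  have e2 := cNnt_up x (j + 1)
  rw [← e1, ← e2] at key
  simp only [K, Y]
  rw [key]
  have a1 := add_cast x (j + 1)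
  have a2 := add_cast x n
  push_cast at a1
  have : ((cN x (j + 1) : ℝ) + cN (nt x) (j + 1)) *
      ((cN x n : ℝ) + cN (nt x) n - cN x (j + 1) - cN (nt x) (j + 1) - 1) =
      ((j : ℝ) + 1) * ((n : ℝ) - j - 2) := by
    rw [a2, a1]
    have : (n : ℝ) - cN x (j + 1) - cN (nt x) (j + 1) - 1 = (n : ℝ) - j - 2 := by linarith
    rw [this]
  rw [this]

theorem H_sd {n : ℕ} {x : ℕ → Bool} (hm : 2 ≤ cN x n) (hm' : 2 ≤ cN (nt x) n) (j : ℕ) :
    H n x (j + 2) + H n x j - 2 * H n x (j + 1) = 2 * Y n x j := by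
  have h1 : (cN x n : ℝ) - 1 ≠ 0 := by
    have : (2 : ℝ) ≤ cN x n := by exact_mod_cast hm
    intro h; linarith
  have h2 : (cN (nt x) n : ℝ) - 1 ≠ 0 := by
    have : (2 : ℝ) ≤ cN (nt x) n := by exact_mod_cast hm'
    intro h; linarith
  simp only [H, Y]
  have e1 := cN_up x (j + 1)
  have e2 := cNnt_up x (j + 1)
  have e3 := cN_up x j
  have e4 := cNnt_up x j
  rw [show j + 2 = j + 1 + 1 from rfl, e1, e2]
  have e3' : (cN x j : ℝ) = cN x (j + 1) - up (x j) := by linarith
  have e4' : (cN (nt x) j : ℝ) = cN (nt x) (j + 1) - up (!(x j)) := by linarith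
  rw [e3', e4']
  generalize (cN x (j + 1) : ℝ) = c
  generalize (cN (nt x) (j + 1) : ℝ) = d
  generalize (cN x n : ℝ) = m at *
  generalize (cN (nt x) n : ℝ) = m' at *
  cases x j <;> cases x (j + 1) <;> simp only [yv, up] <;> simp <;> field_simp <;> ring

/-- Second difference. -/
noncomputable def D2 (e : ℕ → ℝ) (i : ℕ) : ℝ := e (i + 2) + e i - 2 * e (i + 1)

theorem lin {e : ℕ → ℝ} {n : ℕ} (hn : 1 ≤ n) (hd : ∀ i, i + 2 ≤ n → D2 e i = 0)
    (h0 : e 0 = 0) (h1 : e n = 0) : ∀ i, i ≤ n → e i = 0 := by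
  have key : ∀ i, i ≤ n → e i = i * e 1 := by
    intro i
    induction i using Nat.strong_induction_on with
    | _ i ih =>
      intro hi
      match i, ih, hi with
      | 0, _, _ => simp [h0]
      | 1, _, _ => simp
      | i + 2, ih, hi =>
        have := hd i hi
        simp only [D2] at this
        have a := ih i (by omega) (by omega)
        have b := ih (i + 1) (by omega) (by omega)
        rw [a, b] at this
        push_cast at this ⊢
        linarith
  have h2 := key n le_rfl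
  rw [h1] at h2
  have h3 : e 1 = 0 := by
    have : (n : ℝ) ≠ 0 := by
      have : 0 < n := hn
      exact_mod_cast this.ne'
    rcases mul_eq_zero.1 h2.symm with h | h
    · exact absurd h this
    · exact h
  intro i hi
  rw [key i hi, h3, mul_zero]

theorem h_sd {n j : ℕ} (hj : 1 ≤ j) (hjn : j + 3 ≤ n) (i : ℕ) :
    D2 (h n (j + 1)) i = if i = j then 2 else if i < j then -2 / (j : ℝ)
      else -2 / ((n : ℝ) - j - 2) := by
  have hj' : (1 : ℝ) ≤ j := by exact_mod_cast hj
  have hjn' : (j : ℝ) + 3 ≤ n := by exact_mod_cast hjn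
  have n1 : (j : ℝ) ≠ 0 := by intro h; linarith
  have n2 : (n : ℝ) - j - 2 ≠ 0 := by intro h; linarith
  simp only [D2]
  rcases lt_trichotomy i j with hij | hij | hij
  · rw [if_neg hij.ne, if_pos hij]
    simp only [h]
    rw [if_pos (by omega), if_pos (by omega), if_pos (by omega)]
    push_cast
    have : (j : ℝ) + 1 - 1 ≠ 0 := by simpa using n1
    field_simp
    ring
  · subst hij
    rw [if_pos rfl]
    simp only [h]
    rw [if_neg (by omega), if_pos (by omega), if_pos (by omega)]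
    push_cast
    have h1 : (i : ℝ) + 1 - 1 ≠ 0 := by simpa using n1
    have h2 : (n : ℝ) - (i + 1) - 1 ≠ 0 := by
      intro h; apply n2; linarith
    field_simp
    ring
  · rw [if_neg hij.ne', if_neg (by omega)]
    have h2 : (n : ℝ) - (j + 1) - 1 ≠ 0 := by
      intro h; apply n2; linarith
    have e : ∀ k, j + 1 ≤ k → h n (j + 1) k = ((k : ℝ) - (j + 1)) * ((n : ℝ) - k) / ((n : ℝ) - (j + 1) - 1) := by
      intro k hk
      simp only [h]
      split_ifs with hk'
      · have : k = j + 1 := by omega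
        subst this
        push_cast
        simp
      · push_cast
        rfl
    rw [e _ (by omega), e _ (by omega), e _ (by omega)]
    push_cast
    have h3 : (n : ℝ) - j - 2 = (n : ℝ) - (j + 1) - 1 := by ring
    rw [h3]
    field_simp
    ring

theorem h0_sd {n : ℕ} (hn : 2 ≤ n) (i : ℕ) : D2 (h n 0) i = -2 / ((n : ℝ) - 1) := by
  have n1 : (n : ℝ) - 1 ≠ 0 := by
    have : (2 : ℝ) ≤ n := by exact_mod_cast hn
    intro h; linarith
  have e : ∀ k, h n 0 k = ((k : ℝ)) * ((n : ℝ) - k) / ((n : ℝ) - 1) := by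
    intro k
    simp only [h]
    split_ifs with hk'
    · have : k = 0 := by omega
      subst this
      simp
    · push_cast
      simp
  simp only [D2]
  rw [e, e, e]
  push_cast
  field_simp
  ring

/-- `ν` at gap `j + 1`. -/
noncomputable def nu (n : ℕ) (x : ℕ → Bool) (j : ℕ) : ℝ :=
  K n x j / (((j : ℝ) + 1) * ((n : ℝ) - j - 1))

theorem K_zero (n : ℕ) (x : ℕ → Bool) : K n x 0 = 0 := by
  simp only [K]
  cases h0 : x 0
  · have e1 : cN x (0 + 1) = 0 := by rw [cN_succ_false h0]; rfl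
    have e2 : cN (nt x) (0 + 1) = 1 := by rw [cN_succ_true (nt_false h0)]; rfl
    rw [e1, e2]
    cases x (0 + 1) <;> simp [kv]
  · have e1 : cN x (0 + 1) = 1 := by rw [cN_succ_true h0]; rfl
    have e2 : cN (nt x) (0 + 1) = 0 := by rw [cN_succ_false (nt_true h0)]; rfl
    rw [e1, e2]
    cases x (0 + 1) <;> simp [kv]

theorem K_last {n : ℕ} {x : ℕ → Bool} (hm : 2 ≤ cN x (n + 2)) (hm' : 2 ≤ cN (nt x) (n + 2)) :
    K (n + 2) x n = 0 := by
  have h1 : (cN x (n + 2) : ℝ) - 1 ≠ 0 := by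
    have : (2 : ℝ) ≤ cN x (n + 2) := by exact_mod_cast hm
    intro h; linarith
  have h2 : (cN (nt x) (n + 2) : ℝ) - 1 ≠ 0 := by
    have : (2 : ℝ) ≤ cN (nt x) (n + 2) := by exact_mod_cast hm'
    intro h; linarith
  simp only [K]
  have e1 := cN_up x (n + 1)
  have e2 := cNnt_up x (n + 1)
  rw [show n + 2 = n + 1 + 1 from rfl] at *
  rw [e1] at h1
  rw [e2] at h2
  rw [e1, e2]
  generalize (cN x (n + 1) : ℝ) = c at *
  generalize (cN (nt x) (n + 1) : ℝ) = d at *
  cases x n <;> cases hb : x (n + 1) <;> rw [hb] at h1 h2 <;> simp only [kv, up] at * <;>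
    simp at h1 h2 ⊢ <;> field_simp <;> ring

end Q135.Srt
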