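import Pool.Agent.Q135.Srt.Swap

/-! Comparison of cuts: singletons and ties (helper135). -/

namespace Q135.Srt

open Finset

theorem h_refl {n s i : ℕ} (hs : s ≤ n) (hi : i ≤ n) : h n (n - s) (n - i) = h n s i := by
  have e1 : ((n - s : ℕ) : ℝ) = (n : ℝ) - s := Nat.cast_sub hs
  have e2 : ((n - i : ℕ) : ℝ) = (n : ℝ) - i := Nat.cast_sub hi
  simp only [h]
  rcases lt_trichotomy i s with his | his | his
  · rw [if_neg (by omega), if_pos his.le, e1, e2]
    congr 1 <;> ring
  · subst his
    rw [if_pos le_rfl, if_pos le_rfl, e1]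
    simp
  · rw [if_pos (by omega), if_neg (by omega), e1, e2]
    congr 1
    ring

theorem h_conc_low {n t i : ℕ} (hi : i ≤ t) : h n t i + h n (t + 2) i ≤ 2 * h n (t + 1) i := by
  simp only [h]
  rw [if_pos hi, if_pos (by omega), if_pos (by omega)]
  rcases Nat.eq_zero_or_pos i with h0 | h0
  · subst h0; simp
  have i1 : (1 : ℝ) ≤ i := by exact_mod_cast h0
  rcases Nat.eq_or_lt_of_le (show 1 ≤ t by omega) with ht | ht
  · subst ht
    have : i = 1 := by omega
    subst this
    norm_num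
  · have t2 : (2 : ℝ) ≤ t := by exact_mod_cast ht
    have hit : (i : ℝ) ≤ t := by exact_mod_cast hi
    push_cast
    have e : 2 * ((i : ℝ) * ((t : ℝ) + 1 - i) / ((t : ℝ) + 1 - 1)) -
        ((i : ℝ) * ((t : ℝ) - i) / ((t : ℝ) - 1) + (i : ℝ) * ((t : ℝ) + 2 - i) / ((t : ℝ) + 2 - 1)) =
        2 * i * (i - 1) / (t * (t - 1) * (t + 1)) := by
      have a1 : (t : ℝ) + 1 - 1 ≠ 0 := by intro h; linarith
      have a2 : (t : ℝ) - 1 ≠ 0 := by intro h; linarith
      have a3 : (t : ℝ) + 2 - 1 ≠ 0 := by intro h; linarith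
      have a4 : (t : ℝ) ≠ 0 := by intro h; linarith
      have a5 : (t : ℝ) + 1 ≠ 0 := by intro h; linarith
      field_simp
      ring
    have : 0 ≤ 2 * (i : ℝ) * (i - 1) / (t * (t - 1) * (t + 1)) :=
      div_nonneg (mul_nonneg (by linarith) (by linarith))
        (mul_nonneg (mul_nonneg (by linarith) (by linarith)) (by linarith))
    linarith

theorem h_conc {n t i : ℕ} (ht : t + 2 ≤ n) (hin : i ≤ n) (hi : i ≠ t + 1) :
    h n t i + h n (t + 2) i ≤ 2 * h n (t + 1) i := by
  rcases Nat.lt_or_ge i (t + 1) with h1 | h1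
  · exact h_conc_low (by omega)
  · have h2 : t + 2 ≤ i := by omega
    have := h_conc_low (n := n) (t := n - (t + 2)) (i := n - i) (by omega)
    rw [show n - (t + 2) + 2 = n - t by omega, show n - (t + 2) + 1 = n - (t + 1) by omega,
      h_refl (by omega) hin, h_refl (by omega) hin, h_refl (by omega) hin] at this
    linarith

theorem F_conc {g : ℕ → ℝ} (hg : ∀ i, 0 ≤ g i) {n t : ℕ} (ht : t + 2 ≤ n) (h0 : g (t + 1) = 0) :
    F g n t + F g n (t + 2) ≤ 2 * F g n (t + 1) := by
  simp only [F]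
  rw [← Finset.sum_add_distrib, Finset.mul_sum]
  refine Finset.sum_le_sum fun i hi => ?_
  rw [Finset.mem_range] at hi
  by_cases hit : i = t + 1
  · subst hit
    rw [h0]; simp
  · have := h_conc ht hi.le hit
    have := mul_le_mul_of_nonneg_left this (hg i)
    linarith

theorem F_top (g : ℕ → ℝ) (n : ℕ) : F g n n = F g n 0 := by
  simp only [F]
  refine Finset.sum_congr rfl fun i hi => ?_
  rw [Finset.mem_range] at hi
  rw [h0_eq]
  simp only [h]
  rw [if_pos hi.le]

/-- The three-point inequality at the left end. -/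
theorem h_left {n i : ℕ} (hn : 5 ≤ n) (hi : i ≤ n) (h2 : i ≠ 2) :
    h n 0 i + 2 * h n 3 i ≤ 3 * h n 2 i := by
  have n5 : (5 : ℝ) ≤ n := by exact_mod_cast hn
  rw [h0_eq]
  simp only [h]
  rcases Nat.lt_or_ge i 2 with h1 | h1
  · interval_cases i
    · simp
    · rw [if_pos (by norm_num), if_pos (by norm_num)]
      push_cast
      have : (n : ℝ) - 1 ≠ 0 := by intro h; linarith
      rw [one_mul, div_self this]
      norm_num
  · have h3 : 3 ≤ i := by omega
    rw [if_neg (by omega : ¬ i ≤ 2)]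
    rcases Nat.eq_or_lt_of_le hi with hin | hin
    · subst hin
      rw [if_neg (by omega)]
      simp
    have i3 : (3 : ℝ) ≤ i := by exact_mod_cast h3
    have hin' : (i : ℝ) + 1 ≤ n := by exact_mod_cast hin
    have e3 : (if i ≤ 3 then (i : ℝ) * (((3 : ℕ) : ℝ) - i) / (((3 : ℕ) : ℝ) - 1)
        else ((i : ℝ) - ((3 : ℕ) : ℝ)) * ((n : ℝ) - i) / ((n : ℝ) - ((3 : ℕ) : ℝ) - 1)) =
        ((i : ℝ) - 3) * ((n : ℝ) - i) / ((n : ℝ) - 4) := by
      split_ifs with h
      · have : i = 3 := by omega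
        subst this
        norm_num
      · push_cast
        congr 1
        ring
    rw [e3]
    push_cast
    have e : 3 * (((i : ℝ) - 2) * ((n : ℝ) - i) / ((n : ℝ) - 2 - 1)) -
        ((i : ℝ) * ((n : ℝ) - i) / ((n : ℝ) - 1) + 2 * (((i : ℝ) - 3) * ((n : ℝ) - i) / ((n : ℝ) - 4))) =
        6 * ((n : ℝ) - i) * (n - i - 1) / ((n - 1) * (n - 3) * (n - 4)) := by
      have a1 : (n : ℝ) - 2 - 1 ≠ 0 := by intro h; linarith
      have a2 : (n : ℝ) - 1 ≠ 0 := by intro h; linarith
      have a3 : (n : ℝ) - 4 ≠ 0 := by intro h; linarith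
      have a4 : (n : ℝ) - 3 ≠ 0 := by intro h; linarith
      field_simp
      ring
    have : 0 ≤ 6 * ((n : ℝ) - i) * (n - i - 1) / ((n - 1) * (n - 3) * (n - 4)) :=
      div_nonneg (mul_nonneg (mul_nonneg (by norm_num) (by linarith)) (by linarith))
        (mul_nonneg (mul_nonneg (by linarith) (by linarith)) (by linarith))
    linarith

theorem F_left {g : ℕ → ℝ} (hg : ∀ i, 0 ≤ g i) {n : ℕ} (hn : 5 ≤ n) (h0 : g 2 = 0) :
    F g n 0 + 2 * F g n 3 ≤ 3 * F g n 2 := by
  simp only [F]
  rw [Finset.mul_sum, Finset.mul_sum, ← Finset.sum_add_distrib]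
  refine Finset.sum_le_sum fun i hi => ?_
  rw [Finset.mem_range] at hi
  by_cases hit : i = 2
  · subst hit
    rw [h0]; simp
  · have := h_left hn hi.le hit
    have := mul_le_mul_of_nonneg_left this (hg i)
    linarith

theorem F_right {g : ℕ → ℝ} (hg : ∀ i, 0 ≤ g i) {n : ℕ} (hn : 5 ≤ n) (h0 : g (n - 2) = 0) :
    F g n 0 + 2 * F g n (n - 3) ≤ 3 * F g n (n - 2) := by
  rw [← F_top]
  simp only [F]
  rw [Finset.mul_sum, Finset.mul_sum, ← Finset.sum_add_distrib]
  refine Finset.sum_le_sum fun i hi => ?_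
  rw [Finset.mem_range] at hi
  by_cases hit : i = n - 2
  · subst hit
    rw [h0]; simp
  · have := h_left (i := n - i) hn (by omega) (by omega)
    have r1 : h n 0 (n - i) = h n n i := by
      have := h_refl (n := n) (s := n) (i := i) le_rfl hi.le
      rwa [Nat.sub_self] at this
    have r2 : h n 3 (n - i) = h n (n - 3) i := by
      have := h_refl (n := n) (s := n - 3) (i := i) (by omega) hi.le
      rwa [show n - (n - 3) = 3 by omega] at this
    have r3 : h n 2 (n - i) = h n (n - 2) i := by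
      have := h_refl (n := n) (s := n - 2) (i := i) (by omega) hi.le
      rwa [show n - (n - 2) = 2 by omega] at this
    rw [r1, r2, r3] at this
    have := mul_le_mul_of_nonneg_left this (hg i)
    linarith

theorem F_four {g : ℕ → ℝ} (h0 : g 2 = 0) : F g 4 0 ≤ F g 4 2 := by
  simp only [F, Finset.sum_range_succ, Finset.sum_range_zero, h0]
  simp only [h]
  norm_num

/-- A best cut that separates distinct values (singletons free). -/
theorem best_his {g : ℕ → ℝ} (hg : ∀ i, 0 ≤ g i) {n : ℕ} (hn : 2 ≤ n) :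
    ∃ s, s < n ∧ (s = 0 ∨ 0 < g s) ∧ ∀ s', s' < n → F g n s ≤ F g n s' := by
  classical
  have hex : ∃ s, s < n ∧ ∀ s', s' < n → F g n s ≤ F g n s' := by
    obtain ⟨s, hs, hmin⟩ := Finset.exists_min_image (range n) (F g n) ⟨0, Finset.mem_range.2 (by omega)⟩
    exact ⟨s, Finset.mem_range.1 hs, fun s' hs' => hmin s' (Finset.mem_range.2 hs')⟩
  obtain ⟨h1, h2⟩ := Nat.find_spec hex
  have h3 := fun m (hm : m < Nat.find hex) => Nat.find_min hex hm
  refine ⟨Nat.find hex, h1, ?_, h2⟩
  generalize Nat.find hex = s at h1 h2 h3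
  rcases Nat.eq_zero_or_pos s with hs | hs
  · exact Or.inl hs
  · right
    by_contra hcon
    have hz : g s = 0 := le_antisymm (not_lt.1 hcon) (hg s)
    obtain ⟨t, rfl⟩ : ∃ t, s = t + 1 := ⟨s - 1, by omega⟩
    have hc := F_conc hg (n := n) (t := t) (by omega) hz
    have ht : F g n (t + 1) < F g n t := by
      by_contra hle
      rw [not_lt] at hle
      exact h3 t (by omega) ⟨by omega, fun s' hs' => hle.trans (h2 s' hs')⟩
    have ht2 : F g n (t + 1) ≤ F g n (t + 2) := by
      rcases Nat.lt_or_ge (t + 2) n with h | h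
      · exact h2 _ h
      · have : t + 2 = n := by omega
        rw [this, F_top]
        exact h2 0 (by omega)
    linarith

/-- A best cut that separates distinct values (singletons forbidden). -/
theorem best_uis {g : ℕ → ℝ} (hg : ∀ i, 0 ≤ g i) {n : ℕ} :
    ∃ s, (s = 0 ∨ (2 ≤ s ∧ s + 2 ≤ n)) ∧ (s = 0 ∨ 0 < g s) ∧
      ∀ s', (s' = 0 ∨ (2 ≤ s' ∧ s' + 2 ≤ n)) → F g n s ≤ F g n s' := by
  classical
  have hex : ∃ s, (s = 0 ∨ (2 ≤ s ∧ s + 2 ≤ n)) ∧
      ∀ s', (s' = 0 ∨ (2 ≤ s' ∧ s' + 2 ≤ n)) → F g n s ≤ F g n s' := by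
    obtain ⟨s, hs, hmin⟩ := Finset.exists_min_image
      ((range (n + 1)).filter (fun s => s = 0 ∨ (2 ≤ s ∧ s + 2 ≤ n))) (F g n)
      ⟨0, by simp⟩
    rw [Finset.mem_filter] at hs
    refine ⟨s, hs.2, fun s' hs' => hmin s' (Finset.mem_filter.2 ⟨Finset.mem_range.2 ?_, hs'⟩)⟩
    rcases hs' with h | h <;> omega
  obtain ⟨h1, h2⟩ := Nat.find_spec hex
  have h3 := fun m (hm : m < Nat.find hex) => Nat.find_min hex hm
  refine ⟨Nat.find hex, h1, ?_, h2⟩
  generalize Nat.find hex = s at h1 h2 h3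
  rcases h1 with hs | ⟨hs, hsn⟩
  · exact Or.inl hs
  · right
    by_contra hcon
    have hz : g s = 0 := le_antisymm (not_lt.1 hcon) (hg s)
    have hlt : ∀ t, t < s → (t = 0 ∨ (2 ≤ t ∧ t + 2 ≤ n)) → F g n s < F g n t := by
      intro t ht hta
      by_contra hle
      rw [not_lt] at hle
      exact h3 t ht ⟨hta, fun s' hs' => hle.trans (h2 s' hs')⟩
    have hlt0 := hlt 0 (by omega) (Or.inl rfl)
    rcases Nat.eq_or_lt_of_le hs with hs2 | hs2
    · subst hs2
      rcases Nat.eq_or_lt_of_le hsn with hn4 | hn5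
      · have e : n = 4 := by omega
        subst e
        have := F_four hz
        linarith
      · have := F_left hg (n := n) (by omega) hz
        have := h2 3 (Or.inr ⟨by omega, by omega⟩)
        linarith
    · rcases Nat.eq_or_lt_of_le hsn with hs3 | hs3
      · have e : s = n - 2 := by omega
        rw [e] at hz
        have := F_right hg (n := n) (by omega) hz
        have h4 := h2 (n - 3) (Or.inr ⟨by omega, by omega⟩)
        rw [e] at h4 hlt0
        linarith
      · obtain ⟨t, rfl⟩ : ∃ t, s = t + 1 := ⟨s - 1, by omega⟩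
        have hc := F_conc hg (n := n) (t := t) (by omega) hz
        have := hlt t (by omega) (Or.inr ⟨by omega, by omega⟩)
        have := h2 (t + 2) (Or.inr ⟨by omega, by omega⟩)
        linarith

/-- A structure with a free singleton is no better than some cut. -/
theorem H_single {n : ℕ} {x : ℕ → Bool} (h1 : cN x n = 1) :
    ∃ s, 1 ≤ s ∧ s < n ∧ (∀ i, i ≤ n → h n s i ≤ H n x i) ∨ n ≤ 1 := by
  rcases Nat.lt_or_ge 1 n with hn | hn
  swap
  · exact ⟨0, Or.inr hn⟩
  have hex : ∃ i, 1 ≤ cN x (i + 1) := by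
    refine ⟨n - 1, ?_⟩
    rw [show n - 1 + 1 = n by omega, h1]
  obtain ⟨p, hp1, hp2⟩ : ∃ p, 1 ≤ cN x (p + 1) ∧ ∀ i, i ≤ p → cN x i = 0 := by
    classical
    refine ⟨Nat.find hex, Nat.find_spec hex, ?_⟩
    intro i hi
    rcases Nat.eq_zero_or_pos i with h0 | h0
    · subst h0; rfl
    · obtain ⟨k, rfl⟩ : ∃ k, i = k + 1 := ⟨i - 1, by omega⟩
      have := Nat.find_min hex (m := k) (by omega)
      omega
  have hpn : p < n := by
    by_contra hcon
    have := hp2 n (by omega)
    omega
  have hc1 : ∀ i, p < i → i ≤ n → cN x i = 1 := by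
    intro i hi hin
    have a := cN_mono x (show p + 1 ≤ i by omega)
    have b := cN_mono x hin
    omega
  have hm' : cN (nt x) n = n - 1 := by
    have := cN_add x n
    omega
  have hm'r : (cN (nt x) n : ℝ) = (n : ℝ) - 1 := by
    rw [hm', Nat.cast_sub (by omega)]; simp
  have HL : ∀ i, i ≤ p → H n x i = (i : ℝ) * ((n : ℝ) - 1 - i) / ((n : ℝ) - 2) := by
    intro i hi
    have hc := hp2 i hi
    have hd : cN (nt x) i = i := by
      have := cN_add x i
      omega
    simp only [H]
    rw [hm'r, hc, hd]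
    have : (n : ℝ) - 1 - 1 = (n : ℝ) - 2 := by ring
    rw [this]
    simp
  have HR : ∀ i, p < i → i ≤ n → H n x i = ((i : ℝ) - 1) * ((n : ℝ) - i) / ((n : ℝ) - 2) := by
    intro i hi hin
    have hc := hc1 i hi hin
    have hd : (cN (nt x) i : ℝ) = (i : ℝ) - 1 := by
      have := add_cast x i
      rw [hc] at this
      push_cast at this
      linarith
    simp only [H]
    rw [hm'r, hc, hd, h1]
    have : (n : ℝ) - 1 - 1 = (n : ℝ) - 2 := by ring
    rw [this]
    have : (n : ℝ) - 1 - ((i : ℝ) - 1) = (n : ℝ) - i := by ring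
    rw [this]
    simp
  have nr : (2 : ℝ) ≤ n := by exact_mod_cast hn
  rcases Nat.eq_zero_or_pos p with hp0 | hp0
  · subst hp0
    refine ⟨1, Or.inl ⟨le_rfl, hn, ?_⟩⟩
    intro i hi
    rcases Nat.lt_or_ge 1 i with hi1 | hi1
    · rw [HR i (by omega) hi]
      simp only [h]
      rw [if_neg (by omega)]
      apply le_of_eq
      push_cast
      congr 1
      ring
    · interval_cases i
      · rw [H_0, h_0]
      · rw [HR 1 (by omega) hi]
        simp [h]
  · refine ⟨p, Or.inl ⟨hp0, hpn, ?_⟩⟩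
    intro i hi
    have pr : (1 : ℝ) ≤ p := by exact_mod_cast hp0
    have pn : (p : ℝ) + 1 ≤ n := by exact_mod_cast hpn
    rcases Nat.lt_or_ge p i with hip | hip
    · rw [HR i hip hi]
      simp only [h]
      rw [if_neg (by omega)]
      rcases Nat.eq_or_lt_of_le hi with hin | hin
      · subst hin
        simp
      · have in' : (i : ℝ) + 1 ≤ n := by exact_mod_cast hin
        have pi' : (p : ℝ) + 1 ≤ i := by exact_mod_cast hip
        rw [div_le_div_iff₀ (by linarith) (by linarith)]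
        have key : 0 ≤ ((n : ℝ) - i) * (((p : ℝ) - 1) * ((n : ℝ) - i - 1)) :=
          mul_nonneg (by linarith) (mul_nonneg (by linarith) (by linarith))
        nlinarith
    · rw [HL i hip]
      simp only [h]
      rw [if_pos hip]
      have ip : (i : ℝ) ≤ p := by exact_mod_cast hip
      have i0 : (0 : ℝ) ≤ i := Nat.cast_nonneg i
      rcases Nat.eq_or_lt_of_le hp0 with hp1' | hp2'
      · have e : p = 1 := by omega
        rw [e]
        push_cast
        rw [sub_self, div_zero]
        exact div_nonneg (mul_nonneg i0 (by linarith)) (by linarith)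
      · have p2 : (2 : ℝ) ≤ p := by exact_mod_cast hp2'
        rcases Nat.eq_zero_or_pos i with h0 | h0
        · subst h0; simp
        have i1 : (1 : ℝ) ≤ i := by exact_mod_cast h0
        rw [div_le_div_iff₀ (by linarith) (by linarith)]
        have key : 0 ≤ (i : ℝ) * (((i : ℝ) - 1) * ((n : ℝ) - p - 1)) :=
          mul_nonneg (by linarith) (mul_nonneg (by linarith) (by linarith))
        nlinarith

theorem H_grand {n : ℕ} {x : ℕ → Bool} (h1 : cN x n = 0) {i : ℕ} (hi : i ≤ n) :
    H n x i = h n 0 i := by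
  have hc : cN x i = 0 := by
    have := cN_mono x hi
    omega
  have hd : cN (nt x) i = i := by
    have := cN_add x i
    omega
  have hm' : cN (nt x) n = n := by
    have := cN_add x n
    omega
  rw [h0_eq]
  simp only [H]
  rw [hc, hd, hm']
  simp

/-- The sorted structure. -/
def srt (s : ℕ) : ℕ → Bool := fun k => decide (k < s)

theorem cN_srt (s i : ℕ) : cN (srt s) i = min i s := by
  induction i with
  | zero => simp [cN]
  | succ i ih =>
    by_cases hi : i < s
    · rw [cN_succ_true (by simp [srt, hi]), ih]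
      omega
    · rw [cN_succ_false (by simp [srt, hi]), ih]
      omega

theorem H_srt {n s i : ℕ} (hs : s ≤ n) (hi : i ≤ n) : H n (srt s) i = h n s i := by
  have hc := cN_srt s i
  have hcn := cN_srt s n
  have hcn' : cN (srt s) n = s := by omega
  have hd := cN_add (srt s) i
  have hdn := add_cast (srt s) n
  rw [hcn'] at hdn
  have hdn' : (cN (nt (srt s)) n : ℝ) = (n : ℝ) - s := by linarith
  simp only [H, h]
  rw [hcn', hdn']
  split_ifs with his
  · have e1 : cN (srt s) i = i := by omega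
    have e2 : cN (nt (srt s)) i = 0 := by omega
    rw [e1, e2]
    simp
  · have e1 : cN (srt s) i = s := by omega
    have e2 : (cN (nt (srt s)) i : ℝ) = (i : ℝ) - s := by
      have := add_cast (srt s) i
      rw [e1] at this
      linarith
    rw [e1, e2]
    simp

theorem G_srt (g : ℕ → ℝ) {n s : ℕ} (hs : s ≤ n) : G g n (srt s) = F g n s := by
  simp only [G, F]
  exact Finset.sum_congr rfl fun i hi => by rw [H_srt hs (Finset.mem_range.1 hi).le]

theorem G_grand (g : ℕ → ℝ) {n : ℕ} {x : ℕ → Bool} (h1 : cN x n = 0) : G g n x = F g n 0 := by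
  simp only [G, F]
  exact Finset.sum_congr rfl fun i hi => by rw [H_grand h1 (Finset.mem_range.1 hi).le]

/-- Lower bound for all structures, singletons free. -/
theorem all_his {g : ℕ → ℝ} (hg : ∀ i, 0 ≤ g i) {n : ℕ} (hn : 2 ≤ n) {M : ℝ}
    (hM : ∀ s, s < n → M ≤ F g n s) (x : ℕ → Bool) : M ≤ G g n x := by
  have single : ∀ x : ℕ → Bool, cN x n = 1 → M ≤ G g n x := by
    intro x hx
    obtain ⟨s, ⟨_, hs2, hs3⟩ | hn1⟩ := H_single hx
    · refine (hM s hs2).trans ?_
      exact Finset.sum_le_sum fun i hi =>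
        mul_le_mul_of_nonneg_left (hs3 i (Finset.mem_range.1 hi).le) (hg i)
    · omega
  have grand : ∀ x : ℕ → Bool, cN x n = 0 → M ≤ G g n x := by
    intro x hx
    rw [G_grand g hx]
    exact hM 0 (by omega)
  rcases Nat.lt_or_ge (cN x n) 2 with h1 | h1
  · rcases Nat.eq_zero_or_pos (cN x n) with h0 | h0
    · exact grand x h0
    · exact single x (by omega)
  rcases Nat.lt_or_ge (cN (nt x) n) 2 with h2 | h2
  · rw [← G_nt]
    rcases Nat.eq_zero_or_pos (cN (nt x) n) with h0 | h0
    · exact grand _ h0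
    · exact single _ (by omega)
  exact core hg (hM 0 (by omega)) (fun s _ _ => hM s (by omega)) _ x rfl h1 h2

/-- Lower bound for all structures without singletons. -/
theorem all_uis {g : ℕ → ℝ} (hg : ∀ i, 0 ≤ g i) {n : ℕ} {M : ℝ}
    (hM : ∀ s, (s = 0 ∨ (2 ≤ s ∧ s + 2 ≤ n)) → M ≤ F g n s) (x : ℕ → Bool)
    (h1 : cN x n ≠ 1) (h2 : cN (nt x) n ≠ 1) : M ≤ G g n x := by
  rcases Nat.lt_or_ge (cN x n) 2 with h3 | h3
  · rw [G_grand g (show cN x n = 0 by omega)]
    exact hM 0 (Or.inl rfl)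
  rcases Nat.lt_or_ge (cN (nt x) n) 2 with h4 | h4
  · rw [← G_nt, G_grand g (show cN (nt x) n = 0 by omega)]
    exact hM 0 (Or.inl rfl)
  exact core hg (hM 0 (Or.inl rfl)) (fun s a b => hM s (Or.inr ⟨a, b⟩)) _ x rfl h3 h4

end Q135.Srt
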