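import Pool.Agent.Q135.Srt.Core

/-! Decomposition of the kernel of a two-coalition structure into sorted kernels (helper135). -/

namespace Q135.Srt

open Finset

theorem nu_zero (n : ℕ) (x : ℕ → Bool) : nu n x 0 = 0 := by
  simp [nu, K_zero]

theorem nu_last {n : ℕ} {x : ℕ → Bool} (hm : 2 ≤ cN x n) (hm' : 2 ≤ cN (nt x) n) {j : ℕ}
    (hj : j + 2 = n) : nu n x j = 0 := by
  subst hj
  simp [nu, K_last hm hm']

theorem sum_D2 (n : ℕ) (f : ℕ → ℝ) (g : ℕ → ℕ → ℝ) (i : ℕ) :
    D2 (fun k => ∑ j ∈ range n, f j * g j k) i = ∑ j ∈ range n, f j * D2 (g j) i := by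
  simp only [D2]
  rw [Finset.mul_sum, ← Finset.sum_add_distrib, ← Finset.sum_sub_distrib]
  refine Finset.sum_congr rfl fun j _ => ?_
  ring

theorem nu_sum_step {n : ℕ} {x : ℕ → Bool} (hm : 2 ≤ cN x n) (hm' : 2 ≤ cN (nt x) n) {i : ℕ}
    (hi : i + 3 ≤ n) :
    ∑ j ∈ range (n - 1), nu n x j * D2 (h n (j + 1)) (i + 1) -
      ∑ j ∈ range (n - 1), nu n x j * D2 (h n (j + 1)) i = 2 * (Y n x (i + 1) - Y n x i) := by
  have hi' : (i : ℝ) + 3 ≤ n := by exact_mod_cast hi
  have i0 : (0 : ℝ) ≤ i := Nat.cast_nonneg i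
  have p1 : (i : ℝ) + 1 ≠ 0 := by intro h; linarith
  have p2 : (i : ℝ) + 2 ≠ 0 := by intro h; linarith
  have p3 : (n : ℝ) - i - 2 ≠ 0 := by intro h; linarith
  have p4 : (n : ℝ) - i - 1 ≠ 0 := by intro h; linarith
  rw [← Finset.sum_sub_distrib]
  have key : ∀ j ∈ range (n - 1), nu n x j * D2 (h n (j + 1)) (i + 1) -
      nu n x j * D2 (h n (j + 1)) i =
      (if j = i + 1 then nu n x (i + 1) * (2 * ((i : ℝ) + 2) / ((i : ℝ) + 1)) else 0) +
      (if j = i then nu n x i * (-2 * ((n : ℝ) - i - 1) / ((n : ℝ) - i - 2)) else 0) := by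
    intro j hj
    rw [Finset.mem_range] at hj
    rcases Nat.eq_zero_or_pos j with h0 | h0
    · subst h0
      rw [nu_zero, if_neg (by omega)]
      by_cases h0i : 0 = i
      · subst h0i
        rw [if_pos rfl, nu_zero]
        ring
      · rw [if_neg h0i]
        ring
    by_cases hl : j + 2 = n
    · have hz := nu_last hm hm' hl
      rw [hz, if_neg (by omega : ¬ j = i)]
      by_cases hji : j = i + 1
      · subst hji
        rw [if_pos rfl, hz]
        ring
      · rw [if_neg hji]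
        ring
    have hjn : j + 3 ≤ n := by omega
    rw [h_sd h0 hjn, h_sd h0 hjn]
    rcases lt_trichotomy j i with hji | hji | hji
    · rw [if_neg (by omega), if_neg (by omega), if_neg (by omega), if_neg (by omega),
        if_neg (by omega), if_neg (by omega)]
      ring
    · subst hji
      rw [if_neg (by omega), if_neg (by omega), if_pos rfl, if_neg (by omega), if_pos rfl]
      field_simp
      ring
    · rw [if_neg (by omega : ¬ i = j), if_pos hji, if_neg (by omega : ¬ j = i)]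
      by_cases hji' : j = i + 1
      · subst hji'
        rw [if_pos rfl, if_pos rfl]
        push_cast
        field_simp
        ring
      · rw [if_neg (by omega : ¬ i + 1 = j), if_pos (by omega : i + 1 < j), if_neg hji']
        ring
  rw [Finset.sum_congr rfl key, Finset.sum_add_distrib, Finset.sum_ite_eq', Finset.sum_ite_eq',
    if_pos (Finset.mem_range.2 (by omega)), if_pos (Finset.mem_range.2 (by omega))]
  have hK := K_step hm hm' i
  simp only [nu]
  push_cast
  have p5 : (i : ℝ) + 1 + 1 ≠ 0 := by intro h; linarith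
  have p6 : (n : ℝ) - (i + 1) - 1 ≠ 0 := by intro h; linarith
  have e1 : K n x (i + 1) / (((i : ℝ) + 1 + 1) * ((n : ℝ) - (i + 1) - 1)) *
      (2 * ((i : ℝ) + 2) / ((i : ℝ) + 1)) = 2 * K n x (i + 1) / (((i : ℝ) + 1) * ((n : ℝ) - i - 2)) := by
    rw [show (n : ℝ) - (i + 1) - 1 = (n : ℝ) - i - 2 by ring, show (i : ℝ) + 1 + 1 = (i : ℝ) + 2 by ring]
    field_simp
  have e2 : K n x i / (((i : ℝ) + 1) * ((n : ℝ) - i - 1)) *
      (-2 * ((n : ℝ) - i - 1) / ((n : ℝ) - i - 2)) = -(2 * K n x i / (((i : ℝ) + 1) * ((n : ℝ) - i - 2))) := by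
    field_simp
  rw [e1, e2, ← sub_eq_add_neg, ← sub_div, ← mul_sub, hK]
  field_simp

theorem h_one {n j : ℕ} (hj : 1 ≤ j) : h n (j + 1) 1 = 1 := by
  have : (1 : ℝ) ≤ j := by exact_mod_cast hj
  have p : (j : ℝ) ≠ 0 := by intro h; linarith
  simp only [h]
  rw [if_pos (by omega)]
  push_cast
  rw [one_mul, div_self]
  simpa using p

theorem h0_eq (n k : ℕ) : h n 0 k = ((k : ℝ)) * ((n : ℝ) - k) / ((n : ℝ) - 1) := by
  simp only [h]
  split_ifs with hk'
  · have : k = 0 := by omega
    subst this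
    simp
  · push_cast
    simp

theorem H_one {n : ℕ} {x : ℕ → Bool} (hm : 2 ≤ cN x n) (hm' : 2 ≤ cN (nt x) n) :
    H n x 1 = 1 := by
  have h1 : (cN x n : ℝ) - 1 ≠ 0 := by
    have : (2 : ℝ) ≤ cN x n := by exact_mod_cast hm
    intro h; linarith
  have h2 : (cN (nt x) n : ℝ) - 1 ≠ 0 := by
    have : (2 : ℝ) ≤ cN (nt x) n := by exact_mod_cast hm'
    intro h; linarith
  simp only [H]
  cases h0 : x 0
  · have e1 : cN x 1 = 0 := by rw [cN_succ_false h0]; rfl
    have e2 : cN (nt x) 1 = 1 := by rw [cN_succ_true (nt_false h0)]; rfl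
    rw [e1, e2]
    simp [h2]
  · have e1 : cN x 1 = 1 := by rw [cN_succ_true h0]; rfl
    have e2 : cN (nt x) 1 = 0 := by rw [cN_succ_false (nt_true h0)]; rfl
    rw [e1, e2]
    simp [h1]

theorem H_n (n : ℕ) (x : ℕ → Bool) : H n x n = 0 := by
  simp [H]

theorem H_0 (n : ℕ) (x : ℕ → Bool) : H n x 0 = 0 := by
  simp [H, cN]

theorem h_0 (n s : ℕ) : h n s 0 = 0 := by
  simp [h]

theorem h_n {n s : ℕ} (hs : s ≤ n) : h n s n = 0 := by
  simp only [h]
  split_ifs with hk
  · have : n = s := le_antisymm hk hs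
    subst this
    simp
  · simp

theorem decomp {n : ℕ} {x : ℕ → Bool} (hm : 2 ≤ cN x n) (hm' : 2 ≤ cN (nt x) n) {i : ℕ}
    (hi : i ≤ n) :
    H n x i = ∑ j ∈ range (n - 1), nu n x j * h n (j + 1) i +
      (1 - ∑ j ∈ range (n - 1), nu n x j) * h n 0 i := by
  have hn : 4 ≤ n := by have := cN_add x n; omega
  have hnr : (4 : ℝ) ≤ n := by exact_mod_cast hn
  have q1 : (n : ℝ) - 1 ≠ 0 := by intro h; linarith
  set α : ℝ := ((n : ℝ) - 1) * (∑ j ∈ range (n - 1), nu n x j * D2 (h n (j + 1)) 0 - D2 (H n x) 0) / 2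
    with hα
  set e : ℕ → ℝ := fun i => H n x i - (∑ j ∈ range (n - 1), nu n x j * h n (j + 1) i) - α * h n 0 i
    with he
  have hD : ∀ i, D2 e i = D2 (H n x) i - (∑ j ∈ range (n - 1), nu n x j * D2 (h n (j + 1)) i) -
      α * D2 (h n 0) i := by
    intro i
    rw [← sum_D2 (n - 1) (nu n x) (fun j => h n (j + 1)) i]
    simp only [D2, he]
    ring
  have hDz : ∀ i, i + 2 ≤ n → D2 e i = 0 := by
    intro i
    induction i with
    | zero =>
      intro _
      rw [hD, h0_sd (by omega), hα]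
      field_simp
      ring
    | succ i ih =>
      intro hi
      have h1 := ih (by omega)
      rw [hD, h0_sd (by omega)] at h1
      rw [hD, h0_sd (by omega)]
      have h2 := nu_sum_step hm hm' (i := i) (by omega)
      have h3 : D2 (H n x) i = 2 * Y n x i := H_sd hm hm' i
      have h4 : D2 (H n x) (i + 1) = 2 * Y n x (i + 1) := H_sd hm hm' (i + 1)
      rw [h4]
      rw [h3] at h1
      linarith
  have e0 : e 0 = 0 := by
    simp only [he]
    rw [H_0, h_0, Finset.sum_eq_zero]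
    · ring
    · intro j _
      rw [h_0]; ring
  have en : e n = 0 := by
    simp only [he]
    rw [H_n, h_n (Nat.zero_le n), Finset.sum_eq_zero]
    · ring
    · intro j hj
      rw [Finset.mem_range] at hj
      rw [h_n (by omega)]; ring
  have hz := lin (by omega) hDz e0 en
  have h1 := hz 1 (by omega)
  simp only [he] at h1
  have hs : ∑ j ∈ range (n - 1), nu n x j * h n (j + 1) 1 = ∑ j ∈ range (n - 1), nu n x j := by
    refine Finset.sum_congr rfl fun j _ => ?_
    rcases Nat.eq_zero_or_pos j with h0 | h0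
    · subst h0
      rw [nu_zero]; ring
    · rw [h_one h0, mul_one]
  rw [H_one hm hm', hs, h0_eq] at h1
  have hα' : α = 1 - ∑ j ∈ range (n - 1), nu n x j := by
    push_cast at h1
    rw [one_mul, div_self q1] at h1
    linarith
  have h2 := hz i hi
  simp only [he] at h2
  rw [← hα']
  linarith

end Q135.Srt
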