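import Pool.Agent.Q135.Srt.Dec

/-! Bound for the positive part of the coefficients (helper135). -/

namespace Q135.Srt

open Finset

theorem kv_symm (m m' c d : ℝ) (a b : Bool) : kv m' m d c (!a) (!b) = kv m m' c d a b := by
  cases a <;> cases b <;> simp only [kv, Bool.not_true, Bool.not_false] <;> ring

theorem yv_symm (m m' c d : ℝ) (a b : Bool) : yv m' m d c (!a) (!b) = yv m m' c d a b := by
  cases a <;> cases b <;> simp only [yv, Bool.not_true, Bool.not_false]

theorem K_nt (n : ℕ) (x : ℕ → Bool) (j : ℕ) : K n (nt x) j = K n x j := by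
  simp only [K, nt_nt]
  exact kv_symm _ _ _ _ _ _

theorem Y_nt (n : ℕ) (x : ℕ → Bool) (j : ℕ) : Y n (nt x) j = Y n x j := by
  simp only [Y, nt_nt]
  exact yv_symm _ _ _ _ _ _

theorem nu_nt (n : ℕ) (x : ℕ → Bool) (j : ℕ) : nu n (nt x) j = nu n x j := by
  simp only [nu, K_nt]

/-- Relative rank of the last `true` element below `i`. -/
noncomputable def rk (n : ℕ) (x : ℕ → Bool) (i : ℕ) : ℝ :=
  max 0 (((cN x i : ℝ) - 1) / ((cN x n : ℝ) - 1))

theorem nu_same {n : ℕ} {x : ℕ → Bool} (hm : 2 ≤ cN x n) (hm' : 2 ≤ cN (nt x) n) {j : ℕ}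
    (hj : j + 2 ≤ n) (h : x j = x (j + 1)) : max (nu n x j) 0 = 0 := by
  refine max_eq_right ?_
  have hj' : (j : ℝ) + 2 ≤ n := by exact_mod_cast hj
  have j0 : (0 : ℝ) ≤ j := Nat.cast_nonneg j
  have m2 : (2 : ℝ) ≤ cN x n := by exact_mod_cast hm
  have m2' : (2 : ℝ) ≤ cN (nt x) n := by exact_mod_cast hm'
  have c0 : (0 : ℝ) ≤ cN x (j + 1) := Nat.cast_nonneg _
  have d0 : (0 : ℝ) ≤ cN (nt x) (j + 1) := Nat.cast_nonneg _
  have c1 : (cN x (j + 1) : ℝ) ≤ cN x n := by exact_mod_cast cN_mono x (by omega)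
  have d1 : (cN (nt x) (j + 1) : ℝ) ≤ cN (nt x) n := by exact_mod_cast cN_mono (nt x) (by omega)
  simp only [nu]
  refine div_nonpos_of_nonpos_of_nonneg ?_ (mul_nonneg (by linarith) (by linarith))
  simp only [K]
  rw [← h]
  cases x j
  · simp only [kv]
    rw [neg_nonpos]
    exact div_nonneg (mul_nonneg (mul_nonneg c0 (by linarith)) (by linarith))
      (mul_nonneg (by linarith) (by linarith))
  · simp only [kv]
    rw [neg_nonpos]
    exact div_nonneg (mul_nonneg (mul_nonneg d0 (by linarith)) (by linarith))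
      (mul_nonneg (by linarith) (by linarith))

theorem nu_bd {n : ℕ} {x : ℕ → Bool} (hm : 2 ≤ cN x n) (hm' : 2 ≤ cN (nt x) n) {j : ℕ}
    (hj : j + 2 ≤ n) (h0 : x j = false) (h1 : x (j + 1) = true) (hY : 0 ≤ Y n x j) :
    max (nu n x j) 0 ≤ rk n (nt x) (j + 1) - rk n x (j + 1) := by
  have hj' : (j : ℝ) + 2 ≤ n := by exact_mod_cast hj
  have j0 : (0 : ℝ) ≤ j := Nat.cast_nonneg j
  have m2 : (2 : ℝ) ≤ cN x n := by exact_mod_cast hm
  have m2' : (2 : ℝ) ≤ cN (nt x) n := by exact_mod_cast hm'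
  have c0 : (0 : ℝ) ≤ cN x (j + 1) := Nat.cast_nonneg _
  have d0 : (0 : ℝ) ≤ cN (nt x) (j + 1) := Nat.cast_nonneg _
  have c1 : (cN x (j + 1) : ℝ) ≤ cN x n := by exact_mod_cast cN_mono x (by omega)
  have d1 : (cN (nt x) (j + 1) : ℝ) ≤ cN (nt x) n := by exact_mod_cast cN_mono (nt x) (by omega)
  have dpos : 1 ≤ cN (nt x) (j + 1) := by
    rw [cN_succ_true (nt_false h0)]; omega
  have dposr : (1 : ℝ) ≤ cN (nt x) (j + 1) := by exact_mod_cast dpos
  have sj := add_cast x (j + 1)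
  have sn := add_cast x n
  push_cast at sj
  have q1 : (cN x n : ℝ) - 1 ≠ 0 := by intro h; linarith
  have q2 : (cN (nt x) n : ℝ) - 1 ≠ 0 := by intro h; linarith
  simp only [Y, h0, h1, yv] at hY
  have hDr : rk n (nt x) (j + 1) = ((cN (nt x) (j + 1) : ℝ) - 1) / ((cN (nt x) n : ℝ) - 1) := by
    simp only [rk]
    exact max_eq_right (div_nonneg (by linarith) (by linarith))
  have pj : (0 : ℝ) < (j : ℝ) + 1 := by linarith
  have pn : (0 : ℝ) < (n : ℝ) - j - 1 := by linarith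
  rcases Nat.eq_zero_or_pos (cN x (j + 1)) with hc | hc
  · have hCr : rk n x (j + 1) = 0 := by
      simp only [rk]
      refine max_eq_left ?_
      rw [hc]
      exact div_nonpos_of_nonpos_of_nonneg (by norm_num) (by linarith)
    rw [hCr, sub_zero, hDr]
    refine max_le ?_ (div_nonneg (by linarith) (by linarith))
    simp only [nu, K, h0, h1, kv]
    rw [hc] at sj ⊢
    push_cast at sj ⊢
    have hd : (cN (nt x) (j + 1) : ℝ) = (j : ℝ) + 1 := by linarith
    rw [hd, ← sn]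
    apply le_of_eq
    have pn' : (cN x n : ℝ) + (cN (nt x) n : ℝ) - j - 1 ≠ 0 := by
      rw [sn]; exact pn.ne'
    field_simp
    ring
  · have hcr : (1 : ℝ) ≤ cN x (j + 1) := by exact_mod_cast hc
    have hCr : rk n x (j + 1) = ((cN x (j + 1) : ℝ) - 1) / ((cN x n : ℝ) - 1) := by
      simp only [rk]
      exact max_eq_right (div_nonneg (by linarith) (by linarith))
    rw [hCr, hDr]
    have hle : ((cN x (j + 1) : ℝ) - 1) / ((cN x n : ℝ) - 1) ≤
        (cN x (j + 1) : ℝ) / ((cN x n : ℝ) - 1) := by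
      apply div_le_div_of_nonneg_right (by linarith) (by linarith)
    have hΔ : 0 ≤ ((cN (nt x) (j + 1) : ℝ) - 1) / ((cN (nt x) n : ℝ) - 1) -
        ((cN x (j + 1) : ℝ) - 1) / ((cN x n : ℝ) - 1) := by linarith
    refine max_le ?_ hΔ
    simp only [nu, K, h0, h1]
    rw [kv_ft q1 q2]
    set Δ := ((cN (nt x) (j + 1) : ℝ) - 1) / ((cN (nt x) n : ℝ) - 1) -
        ((cN x (j + 1) : ℝ) - 1) / ((cN x n : ℝ) - 1) with hΔd
    rw [div_le_iff₀ (mul_pos pj pn), sj]
    have t1 : 0 ≤ (cN (nt x) (j + 1) : ℝ) * ((cN (nt x) n : ℝ) - cN (nt x) (j + 1)) *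
        ((cN x n : ℝ) + cN (nt x) n - 2) / (((cN x n : ℝ) - 1) * ((cN (nt x) n : ℝ) - 1)) :=
      div_nonneg (mul_nonneg (mul_nonneg d0 (by linarith)) (by linarith))
        (mul_nonneg (by linarith) (by linarith))
    have e : (cN x n : ℝ) + cN (nt x) n - cN x (j + 1) - cN (nt x) (j + 1) - 1 = (n : ℝ) - j - 2 := by
      linarith
    rw [e]
    have t2 : 0 ≤ ((j : ℝ) + 1) * Δ := mul_nonneg pj.le hΔ
    nlinarith

theorem rk_le {n : ℕ} {x : ℕ → Bool} (hm : 2 ≤ cN x n) {i : ℕ} (hi : i ≤ n) : rk n x i ≤ 1 := by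
  have m2 : (2 : ℝ) ≤ cN x n := by exact_mod_cast hm
  have c1 : (cN x i : ℝ) ≤ cN x n := by exact_mod_cast cN_mono x hi
  refine max_le zero_le_one ?_
  rw [div_le_one (by linarith)]
  linarith

/-- No boundary between the two coalitions is improvable by a swap. -/
def NV (n : ℕ) (x : ℕ → Bool) : Prop := ∀ j, j + 2 ≤ n → x j ≠ x (j + 1) → 0 ≤ Y n x j

theorem nu_bd' {n : ℕ} {x : ℕ → Bool} (hm : 2 ≤ cN x n) (hm' : 2 ≤ cN (nt x) n) {j : ℕ}
    (hj : j + 2 ≤ n) (h0 : x j = true) (h1 : x (j + 1) = false) (hY : 0 ≤ Y n x j) :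
    max (nu n x j) 0 ≤ rk n x (j + 1) - rk n (nt x) (j + 1) := by
  have := nu_bd (n := n) (x := nt x) hm' (by rw [nt_nt]; exact hm) hj (nt_true h0) (nt_false h1)
    (by rw [Y_nt]; exact hY)
  rw [nu_nt, nt_nt] at this
  exact this

theorem sum_bd {n : ℕ} {x : ℕ → Bool} (hm : 2 ≤ cN x n) (hm' : 2 ≤ cN (nt x) n) (hv : NV n x) :
    ∀ j, j + 2 ≤ n → ∑ k ∈ range (j + 1), max (nu n x k) 0 ≤
      if x (j + 1) = true then rk n (nt x) (j + 1) else rk n x (j + 1) := by
  intro j
  induction j with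
  | zero =>
    intro _
    rw [Finset.sum_range_one, nu_zero, max_self]
    split_ifs
    · exact le_max_left _ _
    · exact le_max_left _ _
  | succ j ih =>
    intro hj
    have ih' := ih (by omega)
    rw [Finset.sum_range_succ]
    cases h0 : x (j + 1)
    · rw [h0, if_neg (by simp)] at ih'
      cases h1 : x (j + 1 + 1)
      · rw [nu_same hm hm' hj (by rw [h0, h1]), if_neg (by simp), add_zero]
        refine ih'.trans ?_
        simp only [rk]
        rw [cN_succ_false h0]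
      · rw [if_pos rfl]
        have := nu_bd hm hm' hj h0 h1 (hv _ hj (by rw [h0, h1]; simp))
        have e : rk n x (j + 1 + 1) = rk n x (j + 1) := by
          simp only [rk]
          rw [cN_succ_false h0]
        rw [e] at this
        linarith
    · rw [h0, if_pos rfl] at ih'
      cases h1 : x (j + 1 + 1)
      · rw [if_neg (by simp)]
        have := nu_bd' hm hm' hj h0 h1 (hv _ hj (by rw [h0, h1]; simp))
        have e : rk n (nt x) (j + 1 + 1) = rk n (nt x) (j + 1) := by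
          simp only [rk]
          rw [cN_succ_false (nt_true h0)]
        rw [e] at this
        linarith
      · rw [nu_same hm hm' hj (by rw [h0, h1]), if_pos rfl, add_zero]
        refine ih'.trans ?_
        simp only [rk]
        rw [cN_succ_false (nt_true h0)]

theorem sum_le_one {n : ℕ} {x : ℕ → Bool} (hm : 2 ≤ cN x n) (hm' : 2 ≤ cN (nt x) n)
    (hv : NV n x) : ∑ k ∈ range (n - 1), max (nu n x k) 0 ≤ 1 := by
  have hn : 4 ≤ n := by have := cN_add x n; omega
  obtain ⟨j, rfl⟩ : ∃ j, n = j + 2 := ⟨n - 2, by omega⟩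
  refine (sum_bd hm hm' hv j le_rfl).trans ?_
  split_ifs
  · exact rk_le hm' (by omega)
  · exact rk_le hm (by omega)

/-- A sorted kernel is below the grand kernel. -/
theorem h_le_h0 {n s i : ℕ} (hs : 2 ≤ s) (hsn : s + 2 ≤ n) (hi : i ≤ n) : h n s i ≤ h n 0 i := by
  have s2 : (2 : ℝ) ≤ s := by exact_mod_cast hs
  have sn : (s : ℝ) + 2 ≤ n := by exact_mod_cast hsn
  have i0 : (0 : ℝ) ≤ i := Nat.cast_nonneg i
  have hin : (i : ℝ) ≤ n := by exact_mod_cast hi
  rw [h0_eq]
  simp only [h]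
  split_ifs with his
  · have his' : (i : ℝ) ≤ s := by exact_mod_cast his
    rw [div_le_div_iff₀ (by linarith) (by linarith)]
    rcases Nat.eq_zero_or_pos i with h0 | h0
    · subst h0; simp
    · have i1 : (1 : ℝ) ≤ i := by exact_mod_cast h0
      have key : 0 ≤ (i : ℝ) * ((n : ℝ) - s) * ((i : ℝ) - 1) :=
        mul_nonneg (mul_nonneg i0 (by linarith)) (by linarith)
      nlinarith
  · rw [div_le_div_iff₀ (by linarith) (by linarith)]
    rcases Nat.eq_or_lt_of_le hi with h0 | h0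
    · subst h0; simp
    · have i1 : (i : ℝ) + 1 ≤ n := by exact_mod_cast h0
      have key : 0 ≤ ((n : ℝ) - i) * s * ((n : ℝ) - i - 1) :=
        mul_nonneg (mul_nonneg (by linarith) (by linarith)) (by linarith)
      nlinarith

theorem lower {n : ℕ} {x : ℕ → Bool} (hm : 2 ≤ cN x n) (hm' : 2 ≤ cN (nt x) n) {i : ℕ}
    (hi : i ≤ n) :
    ∑ j ∈ range (n - 1), max (nu n x j) 0 * h n (j + 1) i +
      (1 - ∑ j ∈ range (n - 1), max (nu n x j) 0) * h n 0 i ≤ H n x i := by
  rw [decomp hm hm' hi]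
  have e : ∀ f : ℕ → ℝ, ∑ j ∈ range (n - 1), f j * h n (j + 1) i +
      (1 - ∑ j ∈ range (n - 1), f j) * h n 0 i =
      h n 0 i - ∑ j ∈ range (n - 1), f j * (h n 0 i - h n (j + 1) i) := by
    intro f
    rw [sub_mul, one_mul, Finset.sum_mul]
    simp only [mul_sub]
    rw [Finset.sum_sub_distrib]
    ring
  rw [e (nu n x), e (fun j => max (nu n x j) 0)]
  refine sub_le_sub_left (Finset.sum_le_sum fun j hj => ?_) _
  rw [Finset.mem_range] at hj
  rcases Nat.eq_zero_or_pos j with h0 | h0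
  · subst h0
    rw [nu_zero]
    simp
  by_cases hl : j + 2 = n
  · rw [nu_last hm hm' hl]
    simp
  exact mul_le_mul_of_nonneg_right (le_max_left _ _)
    (sub_nonneg.2 (h_le_h0 (by omega) (by omega) hi))

/-- Value of a structure with gap weights `g`. -/
noncomputable def G (g : ℕ → ℝ) (n : ℕ) (x : ℕ → Bool) : ℝ := ∑ i ∈ range n, g i * H n x i

/-- Value of the sorted structure with cut `s` (`s = 0`: grand coalition). -/
noncomputable def F (g : ℕ → ℝ) (n s : ℕ) : ℝ := ∑ i ∈ range n, g i * h n s i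

theorem core_nv {g : ℕ → ℝ} (hg : ∀ i, 0 ≤ g i) {n : ℕ} {x : ℕ → Bool} (hm : 2 ≤ cN x n)
    (hm' : 2 ≤ cN (nt x) n) (hv : NV n x) {M : ℝ} (h0 : M ≤ F g n 0)
    (hM : ∀ s, 2 ≤ s → s + 2 ≤ n → M ≤ F g n s) : M ≤ G g n x := by
  have h1 := sum_le_one hm hm' hv
  have h2 : ∑ j ∈ range (n - 1), max (nu n x j) 0 * F g n (j + 1) +
      (1 - ∑ j ∈ range (n - 1), max (nu n x j) 0) * F g n 0 ≤ G g n x := by
    have e1 : ∑ j ∈ range (n - 1), max (nu n x j) 0 * F g n (j + 1) =
        ∑ i ∈ range n, g i * ∑ j ∈ range (n - 1), max (nu n x j) 0 * h n (j + 1) i := by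
      simp only [F, Finset.mul_sum]
      rw [Finset.sum_comm]
      refine Finset.sum_congr rfl fun i _ => Finset.sum_congr rfl fun j _ => ?_
      ring
    have e2 : (1 - ∑ j ∈ range (n - 1), max (nu n x j) 0) * F g n 0 =
        ∑ i ∈ range n, g i * ((1 - ∑ j ∈ range (n - 1), max (nu n x j) 0) * h n 0 i) := by
      simp only [F]
      rw [Finset.mul_sum]
      refine Finset.sum_congr rfl fun i _ => ?_
      ring
    rw [e1, e2, ← Finset.sum_add_distrib]
    simp only [G]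
    refine Finset.sum_le_sum fun i hi => ?_
    rw [← mul_add]
    exact mul_le_mul_of_nonneg_left (lower hm hm' (Finset.mem_range.1 hi).le) (hg i)
  have h3 : ∑ j ∈ range (n - 1), max (nu n x j) 0 * M ≤
      ∑ j ∈ range (n - 1), max (nu n x j) 0 * F g n (j + 1) := by
    refine Finset.sum_le_sum fun j hj => ?_
    rw [Finset.mem_range] at hj
    rcases Nat.eq_zero_or_pos j with h0 | h0
    · subst h0
      rw [nu_zero]
      simp
    by_cases hl : j + 2 = n
    · rw [nu_last hm hm' hl]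
      simp
    exact mul_le_mul_of_nonneg_left (hM _ (by omega) (by omega)) (le_max_right _ _)
  have h4 : (1 - ∑ j ∈ range (n - 1), max (nu n x j) 0) * M ≤
      (1 - ∑ j ∈ range (n - 1), max (nu n x j) 0) * F g n 0 :=
    mul_le_mul_of_nonneg_left h0 (by linarith)
  rw [← Finset.sum_mul] at h3
  have h5 : (∑ j ∈ range (n - 1), max (nu n x j) 0) * M +
      (1 - ∑ j ∈ range (n - 1), max (nu n x j) 0) * M = M := by ring
  linarith

end Q135.Srt
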