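import Pool.Agent.Q135.Srt.Nup

/-! Removing improvable boundaries by swaps (helper135). -/

namespace Q135.Srt

open Finset

/-- A natural number measure of a structure. -/
def mu (n : ℕ) (x : ℕ → Bool) : ℕ :=
  ∑ i ∈ range n, ((cN (nt x) n - 1) * (cN x i * (cN x n - cN x i)) +
    (cN x n - 1) * (cN (nt x) i * (cN (nt x) n - cN (nt x) i)))

theorem mu_nt (n : ℕ) (x : ℕ → Bool) : mu n (nt x) = mu n x := by
  simp only [mu, nt_nt]
  refine Finset.sum_congr rfl fun i _ => ?_
  ring

/-- Exchange of the elements `j`, `j + 1` at a boundary. -/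
def sw (x : ℕ → Bool) (j : ℕ) : ℕ → Bool :=
  fun k => if k = j then true else if k = j + 1 then false else x k

theorem cN_sw {x : ℕ → Bool} {j : ℕ} (h0 : x j = false) (h1 : x (j + 1) = true) (i : ℕ) :
    cN (sw x j) i = cN x i + (if i = j + 1 then 1 else 0) := by
  induction i with
  | zero => simp [cN]
  | succ i ih =>
    rcases lt_trichotomy i j with hij | hij | hij
    · have : sw x j i = x i := by
        simp only [sw]
        rw [if_neg (by omega), if_neg (by omega)]
      simp only [cN]
      rw [ih, this, if_neg (by omega : ¬ i = j + 1), if_neg (by omega : ¬ i + 1 = j + 1)]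
      ring
    · subst hij
      have : sw x i i = true := by simp [sw]
      rw [cN_succ_true this, cN_succ_false h0, ih, if_neg (by omega), if_pos rfl]
    · rcases Nat.eq_or_lt_of_le (Nat.succ_le_of_lt hij) with hij' | hij'
      · have e : i = j + 1 := by omega
        subst e
        have : sw x j (j + 1) = false := by simp [sw]
        rw [cN_succ_false this, cN_succ_true h1, ih, if_pos rfl, if_neg (by omega)]
      · have : sw x j i = x i := by
          simp only [sw]
          rw [if_neg (by omega), if_neg (by omega)]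
        simp only [cN]
        rw [ih, this, if_neg (by omega : ¬ i = j + 1), if_neg (by omega : ¬ i + 1 = j + 1)]
        ring

theorem swap_lemma {n : ℕ} {x : ℕ → Bool} (hm : 2 ≤ cN x n) (hm' : 2 ≤ cN (nt x) n) {j : ℕ}
    (hj : j + 2 ≤ n) (h0 : x j = false) (h1 : x (j + 1) = true) (hY : Y n x j < 0) :
    ∃ x' : ℕ → Bool, cN x' n = cN x n ∧ cN (nt x') n = cN (nt x) n ∧ mu n x' < mu n x ∧
      ∀ i, H n x' i ≤ H n x i := by
  have hc := cN_sw h0 h1
  have hd : ∀ i, cN (nt (sw x j)) i + (if i = j + 1 then 1 else 0) = cN (nt x) i := by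
    intro i
    have a := cN_add (sw x j) i
    have b := cN_add x i
    rw [hc i] at a
    omega
  have hcn : cN (sw x j) n = cN x n := by rw [hc n, if_neg (by omega), add_zero]
  have hdn : cN (nt (sw x j)) n = cN (nt x) n := by
    have := hd n
    rw [if_neg (by omega), add_zero] at this
    exact this
  have m2 : (2 : ℝ) ≤ cN x n := by exact_mod_cast hm
  have m2' : (2 : ℝ) ≤ cN (nt x) n := by exact_mod_cast hm'
  have q1 : (cN x n : ℝ) - 1 ≠ 0 := by intro h; linarith
  have q2 : (cN (nt x) n : ℝ) - 1 ≠ 0 := by intro h; linarith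
  simp only [Y, h0, h1, yv] at hY
  have hdj := hd (j + 1)
  rw [if_pos rfl] at hdj
  have hcj := hc (j + 1)
  rw [if_pos rfl] at hcj
  have cle : cN x (j + 1) + 1 ≤ cN x n := by
    rw [← cN_succ_true h1]
    exact cN_mono x (by omega)
  have dle : cN (nt x) (j + 1) ≤ cN (nt x) n := cN_mono _ (by omega)
  refine ⟨sw x j, hcn, hdn, ?_, ?_⟩
  · simp only [mu]
    rw [hcn, hdn]
    refine Finset.sum_lt_sum ?_ ⟨j + 1, Finset.mem_range.2 (by omega), ?_⟩
    · intro i _
      by_cases hi : i = j + 1
      swap
      · have a := hc i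
        have b := hd i
        rw [if_neg hi, add_zero] at a b
        rw [a, b]
      · subst hi
        apply le_of_lt
        obtain ⟨e, he⟩ := Nat.exists_eq_add_of_le cle
        obtain ⟨f, hf⟩ := Nat.exists_eq_add_of_le dle
        rw [hcj]
        set d0 := cN (nt (sw x j)) (j + 1) with hd0
        set c := cN x (j + 1) with hcdef
        rw [← hdj, he, hf, ← hdj] at hY
        rw [← hdj, he, hf, ← hdj]
        have s1 : c + 1 + e - (c + 1) = e := by omega
        have s2 : c + 1 + e - c = e + 1 := by omega
        have s3 : d0 + 1 + f - 1 = d0 + f := by omega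
        have s4 : c + 1 + e - 1 = c + e := by omega
        have s5 : d0 + 1 + f - d0 = f + 1 := by omega
        have s6 : d0 + 1 + f - (d0 + 1) = f := by omega
        rw [s1, s2, s3, s4, s5, s6]
        have ce : 0 < ((c : ℝ) + e) := by
          have : ((c + 1 + e : ℕ) : ℝ) ≥ 2 := by rw [← he]; exact m2
          push_cast at this
          linarith
        have df : 0 < ((d0 : ℝ) + f) := by
          have : ((d0 + 1 + f : ℕ) : ℝ) ≥ 2 := by rw [hdj, ← hf]; exact m2'
          push_cast at this
          linarith
        have hv : (d0 : ℝ) * (c + e) < c * (d0 + f) := by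
          have : (d0 : ℝ) / (d0 + f) < (c : ℝ) / (c + e) := by
            push_cast at hY
            have a1 : (d0 : ℝ) + 1 - 1 = d0 := by ring
            have a2 : (d0 : ℝ) + 1 + f - 1 = d0 + f := by ring
            have a3 : (c : ℝ) + 1 + e - 1 = c + e := by ring
            rw [a1, a2, a3] at hY
            linarith
          rwa [div_lt_div_iff₀ df ce] at this
        have hv' : d0 * (c + e) < c * (d0 + f) := by exact_mod_cast hv
        nlinarith
    · obtain ⟨e, he⟩ := Nat.exists_eq_add_of_le cle
      obtain ⟨f, hf⟩ := Nat.exists_eq_add_of_le dle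
      rw [hcj]
      set d0 := cN (nt (sw x j)) (j + 1) with hd0
      set c := cN x (j + 1) with hcdef
      rw [← hdj, he, hf, ← hdj] at hY
      rw [← hdj, he, hf, ← hdj]
      have s1 : c + 1 + e - (c + 1) = e := by omega
      have s2 : c + 1 + e - c = e + 1 := by omega
      have s3 : d0 + 1 + f - 1 = d0 + f := by omega
      have s4 : c + 1 + e - 1 = c + e := by omega
      have s5 : d0 + 1 + f - d0 = f + 1 := by omega
      have s6 : d0 + 1 + f - (d0 + 1) = f := by omega
      rw [s1, s2, s3, s4, s5, s6]
      have ce : 0 < ((c : ℝ) + e) := by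
        have : ((c + 1 + e : ℕ) : ℝ) ≥ 2 := by rw [← he]; exact m2
        push_cast at this
        linarith
      have df : 0 < ((d0 : ℝ) + f) := by
        have : ((d0 + 1 + f : ℕ) : ℝ) ≥ 2 := by rw [hdj, ← hf]; exact m2'
        push_cast at this
        linarith
      have hv : (d0 : ℝ) * (c + e) < c * (d0 + f) := by
        have : (d0 : ℝ) / (d0 + f) < (c : ℝ) / (c + e) := by
          push_cast at hY
          have a1 : (d0 : ℝ) + 1 - 1 = d0 := by ring
          have a2 : (d0 : ℝ) + 1 + f - 1 = d0 + f := by ring
          have a3 : (c : ℝ) + 1 + e - 1 = c + e := by ring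
          rw [a1, a2, a3] at hY
          linarith
        rwa [div_lt_div_iff₀ df ce] at this
      have hv' : d0 * (c + e) < c * (d0 + f) := by exact_mod_cast hv
      nlinarith
  · intro i
    by_cases hi : i = j + 1
    swap
    · have a := hc i
      have b := hd i
      rw [if_neg hi, add_zero] at a b
      simp only [H]
      rw [a, b, hcn, hdn]
    · subst hi
      simp only [H]
      rw [hcn, hdn, hcj]
      have hdr : (cN (nt (sw x j)) (j + 1) : ℝ) = cN (nt x) (j + 1) - 1 := by
        have : ((cN (nt (sw x j)) (j + 1) + 1 : ℕ) : ℝ) = cN (nt x) (j + 1) := by rw [hdj]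
        push_cast at this
        linarith
      rw [hdr]
      push_cast
      set c : ℝ := (cN x (j + 1) : ℝ)
      set d : ℝ := (cN (nt x) (j + 1) : ℝ)
      set m : ℝ := (cN x n : ℝ)
      set m' : ℝ := (cN (nt x) n : ℝ)
      have e : (c + 1) * (m - (c + 1)) / (m - 1) + (d - 1) * (m' - (d - 1)) / (m' - 1) -
          (c * (m - c) / (m - 1) + d * (m' - d) / (m' - 1)) =
          2 * ((d - 1) / (m' - 1) - c / (m - 1)) := by
        field_simp
        ring
      linarith

theorem G_nt (g : ℕ → ℝ) (n : ℕ) (x : ℕ → Bool) : G g n (nt x) = G g n x := by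
  simp only [G, H_nt]

theorem core {g : ℕ → ℝ} (hg : ∀ i, 0 ≤ g i) {n : ℕ} {M : ℝ} (h0 : M ≤ F g n 0)
    (hM : ∀ s, 2 ≤ s → s + 2 ≤ n → M ≤ F g n s) :
    ∀ (N : ℕ) (x : ℕ → Bool), mu n x = N → 2 ≤ cN x n → 2 ≤ cN (nt x) n → M ≤ G g n x := by
  intro N
  induction N using Nat.strong_induction_on with
  | _ N ih =>
    intro x hN hm hm'
    by_cases hv : NV n x
    · exact core_nv hg hm hm' hv h0 hM
    · simp only [NV] at hv
      push Not at hv
      obtain ⟨j, hj, hne, hY⟩ := hv
      cases hx : x j
      · have hx1 : x (j + 1) = true := by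
          cases h : x (j + 1)
          · rw [hx, h] at hne; exact absurd rfl hne
          · rfl
        obtain ⟨x', a, b, c, d⟩ := swap_lemma hm hm' hj hx hx1 hY
        refine (ih _ (by rw [← hN]; exact c) x' rfl (by rw [a]; exact hm) (by rw [b]; exact hm')).trans ?_
        exact Finset.sum_le_sum fun i _ => mul_le_mul_of_nonneg_left (d i) (hg i)
      · have hx1 : x (j + 1) = false := by
          cases h : x (j + 1)
          · rfl
          · rw [hx, h] at hne; exact absurd rfl hne
        obtain ⟨x', a, b, c, d⟩ := swap_lemma (x := nt x) hm' (by rw [nt_nt]; exact hm) hj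
          (nt_true hx) (nt_false hx1) (by rw [Y_nt]; exact hY)
        rw [nt_nt] at b
        rw [mu_nt] at c
        refine (ih _ (by rw [← hN]; exact c) x' rfl (by rw [a]; exact hm') (by rw [b]; exact hm)).trans ?_
        rw [← G_nt g n x]
        exact Finset.sum_le_sum fun i _ => mul_le_mul_of_nonneg_left (d i) (hg i)

end Q135.Srt
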